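import Mathlib

set_option autoImplicit false

namespace Pool.Agent.Results.MP_e3442a_co.N25

open SimpleGraph Finset

/-- the largest order of an induced tree -/
noncomputable def tree {V : Type} (G : SimpleGraph V) : ℕ :=
  sSup {k | ∃ S : Finset V, (G.induce (S : Set V)).IsTree ∧ S.card = k}

/-- the independence number of `G[N(v)]` -/
noncomputable def lam {V : Type} (G : SimpleGraph V) (v : V) : ℕ :=
  sSup {k | ∃ S : Finset V, (∀ s ∈ S, G.Adj v s) ∧ G.IsIndepSet (S : Set V) ∧ S.card = k}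

/-- eccentricity -/
noncomputable def ecc {V : Type} [Fintype V] (G : SimpleGraph V) (v : V) : ℕ :=
  univ.sup fun u => G.dist u v

def lev (a : Fin 25) : ℕ :=
  if a.val < 10 then 0 else if a.val = 10 then 1 else if a.val < 14 then 2 else
    if a.val = 14 then 3 else 4

def G : SimpleGraph (Fin 25) where
  Adj a b := a ≠ b ∧ (lev a + 1 = lev b ∨ lev b + 1 = lev a ∨ (lev a = lev b ∧ lev a ≠ 2))
  symm := ⟨fun a b h => ⟨h.1.symm, by omega⟩⟩
  loopless := ⟨fun a h => h.1 rfl⟩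

instance : DecidableRel G.Adj := fun _ _ => inferInstanceAs (Decidable (_ ∧ _))

lemma conn : G.Connected := by
  refine (connected_iff_exists_forall_reachable _).2 ⟨12, fun v => ?_⟩
  have : ∀ v, v = 12 ∨ G.Adj 12 v ∨ ∃ w, G.Adj 12 w ∧ G.Adj w v := by decide +kernel
  rcases this v with rfl | h | ⟨w, h1, h2⟩
  · rfl
  · exact h.reachable
  · exact h1.reachable.trans h2.reachable

lemma lip {a b : Fin 25} (p : G.Walk a b) : lev b ≤ lev a + p.length ∧ lev a ≤ lev b + p.length := by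
  induction p with
  | nil => simp
  | cons h p ih =>
    have := h.2
    simp only [Walk.length_cons]
    omega

lemma ecc_ge (v : Fin 25) : 4 - lev v ≤ ecc G v ∧ lev v ≤ ecc G v := by
  have h1 : G.dist 0 v ≤ ecc G v := le_sup (f := fun u => G.dist u v) (mem_univ _)
  have h2 : G.dist 24 v ≤ ecc G v := le_sup (f := fun u => G.dist u v) (mem_univ _)
  obtain ⟨p, hp⟩ := conn.exists_walk_length_eq_dist 0 v
  obtain ⟨q, hq⟩ := conn.exists_walk_length_eq_dist 24 v
  have := lip p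
  have := lip q
  have : lev 0 = 0 := rfl
  have : lev 24 = 4 := rfl
  omega

lemma clq {S : Finset (Fin 25)} (h : (G.induce (S : Set (Fin 25))).IsAcyclic) (A : Finset (Fin 25))
    (hA : ∀ a ∈ A, ∀ b ∈ A, a ≠ b → G.Adj a b) : (S ∩ A).card ≤ 2 := by
  by_contra hc
  obtain ⟨a, ha, b, hb, c, hc, p, q, r⟩ := two_lt_card.1 (not_le.1 hc)
  simp only [mem_inter] at ha hb hc
  let a' : (S : Set (Fin 25)) := ⟨a, ha.1⟩
  let b' : (S : Set (Fin 25)) := ⟨b, hb.1⟩
  let c' : (S : Set (Fin 25)) := ⟨c, hc.1⟩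
  have e1 : (G.induce (S : Set (Fin 25))).Adj a' b' := hA a ha.2 b hb.2 p
  have e2 : (G.induce (S : Set (Fin 25))).Adj a' c' := hA a ha.2 c hc.2 q
  have e3 : (G.induce (S : Set (Fin 25))).Adj b' c' := hA b hb.2 c hc.2 r
  exact h.cliqueFree le_rfl _ (is3Clique_triple_iff.2 ⟨e1, e2, e3⟩)

lemma cut {S : Finset (Fin 25)} (l : ℕ) (hl : ∀ x ∈ S, lev x ≠ l) {a b : (S : Set (Fin 25))}
    (p : (G.induce (S : Set (Fin 25))).Walk a b) : lev a.1 < l ↔ lev b.1 < l := by
  induction p with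
  | nil => rfl
  | @cons x y z h p ih =>
    have h1 := (show G.Adj x.1 y.1 from h).2
    have := hl x.1 x.2
    have := hl y.1 y.2
    omega

lemma tree5 : tree G ≤ 5 := by
  refine csSup_le' ?_
  rintro k ⟨S, h, rfl⟩
  let L : ℕ → ℕ → Finset (Fin 25) := fun i j => univ.filter fun a => i ≤ lev a ∧ lev a ≤ j
  have h1 := clq h.isAcyclic (L 0 1) (by decide +kernel)
  have h2 := clq h.isAcyclic (L 3 4) (by decide +kernel)
  have h3 : (S ∩ L 2 2).card ≤ 3 := (card_le_card inter_subset_right).trans (by decide)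
  have h4 : S = S ∩ L 0 1 ∪ S ∩ L 2 2 ∪ S ∩ L 3 4 := by
    rw [← inter_union_distrib_left, ← inter_union_distrib_left,
      show L 0 1 ∪ L 2 2 ∪ L 3 4 = univ by decide, inter_univ]
  have h5 : S.card ≤ (S ∩ L 0 1).card + (S ∩ L 2 2).card + (S ∩ L 3 4).card := by
    conv_lhs => rw [h4]
    exact (card_union_le _ _).trans (Nat.add_le_add_right (card_union_le _ _) _)
  by_contra hc
  obtain ⟨a, ha⟩ : (S ∩ L 0 1).Nonempty := card_pos.1 (by omega)
  obtain ⟨b, hb⟩ : (S ∩ L 3 4).Nonempty := card_pos.1 (by omega)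
  obtain ⟨u, hu, w, hw, huw⟩ := one_lt_card.1 (show 1 < (S ∩ L 2 2).card by omega)
  simp only [L, mem_inter, mem_filter, mem_univ, true_and] at ha hb hu hw
  obtain ⟨p⟩ := h.connected ⟨a, ha.1⟩ ⟨b, hb.1⟩
  have x1 : (10 : Fin 25) ∈ S := by
    by_contra hx
    have hl : ∀ x ∈ S, lev x ≠ 1 := fun x hs e =>
      hx ((show ∀ x : Fin 25, lev x = 1 → x = 10 by decide) x e ▸ hs)
    have := cut 1 hl p
    have := hl a ha.1
    simp only at *
    omega
  have x2 : (14 : Fin 25) ∈ S := by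
    by_contra hx
    have hl : ∀ x ∈ S, lev x ≠ 3 := fun x hs e =>
      hx ((show ∀ x : Fin 25, lev x = 3 → x = 14 by decide) x e ▸ hs)
    have := cut 3 hl p
    simp only at *
    omega
  have mid : ∀ u : Fin 25, 2 ≤ lev u ∧ lev u ≤ 2 → G.Adj 10 u ∧ G.Adj u 14 := by decide
  let s : (S : Set (Fin 25)) := ⟨10, x1⟩
  let t : (S : Set (Fin 25)) := ⟨14, x2⟩
  have key : ∀ u (hu : u ∈ S ∧ 2 ≤ lev u ∧ lev u ≤ 2), ∃ q : (G.induce (S : Set (Fin 25))).Path s t,
      q.1.support.map Subtype.val = [10, u, 14] := by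
    intro u hu
    let m : (S : Set (Fin 25)) := ⟨u, hu.1⟩
    have e1 : (G.induce (S : Set (Fin 25))).Adj s m := (mid u hu.2).1
    have e2 : (G.induce (S : Set (Fin 25))).Adj m t := (mid u hu.2).2
    have e3 : s ≠ t := fun e => absurd (congrArg Subtype.val e) (show (10 : Fin 25) ≠ 14 by decide)
    exact ⟨⟨Walk.cons e1 (Walk.cons e2 Walk.nil), by simp [e1.ne, e2.ne, e3]⟩, rfl⟩
  obtain ⟨q1, k1⟩ := key u hu
  obtain ⟨q2, k2⟩ := key w hw
  rw [(h.isAcyclic.subsingleton_path s t).elim q1 q2, k2] at k1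
  simp [huw.symm] at k1

lemma lam4 : 4 ≤ univ.sup (lam G) := by
  have : 4 ≤ lam G 10 := by
    unfold lam
    refine le_csSup ⟨25, ?_⟩ ⟨{0, 11, 12, 13}, by decide, ?_, rfl⟩
    · rintro k ⟨S, -, -, rfl⟩
      simpa using card_le_univ S
    · intro a ha b hb
      revert a b
      simp only [mem_coe]
      decide
  exact le_trans this (le_sup (f := lam G) (mem_univ 10))

/-- A connected graph with `tree(G) < ⌈ecc_avg(G) + max λ / 3⌉`. -/
theorem result : ∃ (V : Type) (_ : Fintype V) (G : SimpleGraph V), G.Connected ∧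
    (tree G : ℤ) < ⌈(∑ v, (ecc G v : ℚ)) / Fintype.card V + ((univ.sup (lam G) : ℕ) : ℚ) / 3⌉ := by
  refine ⟨Fin 25, inferInstance, G, conn, Int.lt_ceil.2 ?_⟩
  have h1 : 92 ≤ ∑ v, ecc G v :=
    le_trans (by decide) (sum_le_sum (f := fun v => max (4 - lev v) (lev v))
      fun v _ => max_le (ecc_ge v).1 (ecc_ge v).2)
  have h2 : (92 : ℚ) ≤ ∑ v, (ecc G v : ℚ) := by exact_mod_cast h1
  have h3 : (4 : ℚ) ≤ (univ.sup (lam G) : ℕ) := by exact_mod_cast lam4
  have h4 : (tree G : ℚ) ≤ 5 := by exact_mod_cast tree5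
  simp only [Fintype.card_fin, Int.cast_natCast, Nat.cast_ofNat]
  linarith

end Pool.Agent.Results.MP_e3442a_co.N25
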